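import Pool.Agent.helper62.EN.SpecA

set_option autoImplicit false

open scoped Topology BoundedContinuousFunction
open MeasureTheory Filter Set

namespace Pool.Agent.EN

theorem LM2_proof (h1 : CNT_stmt) (h2 : PAR_stmt) : LM2_stmt := by
  intro X _ _ _ _ _ _ f μs U h e hf hμ hinv hU he hH
  have : TopologicalSpace.MetrizableSpace X :=
    TopologicalSpace.metrizableSpace_of_t3_secondCountable X
  let a : ℕ → ProbabilityMeasure X := fun m => ⟨μs m, hμ m⟩
  let L : Ultrafilter ℕ := hyperfilter ℕ
  have hL : (L : Filter ℕ) ≤ atTop := Nat.hyperfilter_le_atTop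
  obtain ⟨μ, hlim⟩ : ∃ μ : ProbabilityMeasure X, Tendsto a (L : Filter ℕ) (𝓝 μ) :=
    ⟨_, (L.map a).le_nhds_lim⟩
  have hint : ∀ V : X →ᵇ ℝ,
      Tendsto (fun m => ∫ x, V x ∂μs m) (L : Filter ℕ) (𝓝 (∫ x, V x ∂(μ : Measure X))) :=
    ProbabilityMeasure.tendsto_iff_forall_integral_tendsto.1 hlim
  have hcont : ∀ t, Continuous (f t) := fun t =>
    hf.cont.comp (continuous_const.prodMk continuous_id)
  have hinvμ : ∀ t, (μ : Measure X).map (f t) = μ := by
    intro t
    have : IsProbabilityMeasure ((μ : Measure X).map (f t)) :=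
      Measure.isProbabilityMeasure_map (hcont t).aemeasurable
    apply ext_of_forall_integral_eq_of_IsFiniteMeasure
    intro V
    rw [integral_map (hcont t).aemeasurable V.continuous.aestronglyMeasurable]
    have e1 := hint (V.compContinuous ⟨f t, hcont t⟩)
    have e2 := hint V
    have e3 : (fun m => ∫ x, (V.compContinuous ⟨f t, hcont t⟩) x ∂μs m) =
        fun m => ∫ x, V x ∂μs m := by
      funext m
      conv_rhs => rw [← hinv m t]
      rw [integral_map (hcont t).aemeasurable V.continuous.aestronglyMeasurable]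
      rfl
    rw [e3] at e1
    exact tendsto_nhds_unique e1 e2
  refine ⟨μ, μ.2, hinvμ, ?_, ?_⟩
  · intro V b hV hb
    refine le_of_forall_pos_le_add fun ε hε => ?_
    have e1 := hint (BoundedContinuousFunction.mkOfCompact ⟨V, hV⟩)
    exact le_of_tendsto e1 ((hb ε hε).filter_mono hL)
  · set lam : Measure X := (μ : Measure X) +
      Measure.sum (fun m => ((2 : ENNReal)⁻¹ ^ m) • μs m) with hlam
    have hfin : IsFiniteMeasure lam := by
      constructor
      rw [hlam, Measure.add_apply, Measure.sum_apply _ MeasurableSet.univ]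
      have e1 : ∀ m, (((2 : ENNReal)⁻¹ ^ m) • μs m) univ = (2 : ENNReal)⁻¹ ^ m := by
        intro m
        have := hμ m
        rw [Measure.smul_apply, measure_univ, smul_eq_mul, mul_one]
      simp_rw [e1]
      rw [measure_univ, ENNReal.tsum_geometric_two]
      norm_num
    obtain ⟨p, P, hPm, hPs, hPf⟩ := h2 X lam U hfin hU
    have hμ0 : ∀ i, (μ : Measure X) (frontier (P ⁻¹' {i})) = 0 := by
      intro i
      have e1 := hPf i
      rw [hlam, Measure.add_apply, add_eq_zero] at e1
      exact e1.1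
    have hμs0 : ∀ m i, μs m (frontier (P ⁻¹' {i})) = 0 := by
      intro m i
      have e1 := hPf i
      rw [hlam, Measure.add_apply, add_eq_zero] at e1
      have e2 : (((2 : ENNReal)⁻¹ ^ m) • μs m) (frontier (P ⁻¹' {i})) ≤ 0 := by
        rw [← e1.2]
        exact Measure.le_sum (fun m => ((2 : ENNReal)⁻¹ ^ m) • μs m) m _
      rw [Measure.smul_apply, smul_eq_mul, nonpos_iff_eq_zero, mul_eq_zero] at e2
      rcases e2 with e2 | e2
      · exact absurd e2 (pow_ne_zero m (ENNReal.inv_ne_zero.2 ENNReal.ofNat_ne_top))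
      · exact e2
    have key : ∀ j : ℕ, h * j ≤ Hn (μ : Measure X) (f 1) P j := by
      intro j
      have e1 := h1 X ℕ (L : Filter ℕ) a μ (f 1) p P j hlim (hcont 1) (hinvμ 1) hμ0
      have e2 : Tendsto (fun m => (h - e m p) * (j : ℝ)) (L : Filter ℕ) (𝓝 ((h - 0) * j)) :=
        (tendsto_const_nhds.sub ((he p).mono_left hL)).mul_const _
      rw [sub_zero] at e2
      exact le_of_tendsto_of_tendsto' e2 e1 fun m => hH m p P hPm hPs (hμs0 m) j
    refine le_iSup_of_le p (le_iSup_of_le P (le_iSup_of_le hPm (le_iInf fun n => ?_)))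
    rw [EReal.coe_le_coe_iff, le_div_iff₀ (by positivity)]
    have e1 := key (n + 1)
    push_cast at e1
    exact e1

end Pool.Agent.EN
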