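import Pool.Agent.helper80.EN.Spec

/-!
Row NLN: nilpotent linear groups over finite fields have bounded derived length (at most `n`).

Proof. Extend scalars to the algebraic closure. For a representation of a nilpotent group `G` on a
space `V` of dimension at most `n` over an algebraically closed field the `n`-th derived group acts
trivially, by induction on `n`. If `W` is a proper nonzero invariant subspace, the `n`-th derived
group acts trivially on `W` and on `V / W`, so its elements commute on `V`. Otherwise let `C` be the
set of the elements which commute with all others on `V` (they are scalars). If `C = G` the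
commutators act trivially. Otherwise there is `x` outside `C` with all `[x, y]` in `C`. The
commutator subgroup commutes with `x` on `V`, so it leaves the eigenspaces of `x` invariant; they
span `V` and are proper.
-/

set_option autoImplicit false

namespace Pool.Agent.helper80.EN

open Module
open scoped commutatorElement

universe u

section

variable {K : Type u} [Field K] {G : Type u} [Group G] {V : Type u} [AddCommGroup V] [Module K V]

theorem NLN_comm_of (ρ : G →* Module.End K V) (g h : G) (H : ρ g * ρ h = ρ h * ρ g) :
    ρ ⁅g, h⁆ = 1 := by
  have h1 : ⁅g, h⁆ = (g * h) * (h * g)⁻¹ := by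
    rw [commutatorElement_def]; group
  rw [h1, map_mul, map_mul, H, ← map_mul, ← map_mul, mul_inv_cancel, map_one]

/-- The restriction of a representation to an invariant subspace. -/
def NLN_res (ρ : G →* Module.End K V) (W : Submodule K V) (hW : ∀ g, ∀ w ∈ W, ρ g w ∈ W) :
    G →* Module.End K W where
  toFun g := (ρ g).restrict (hW g)
  map_one' := by
    ext w
    simp [LinearMap.restrict_apply]
  map_mul' := by
    intro a b
    ext w
    simp [LinearMap.restrict_apply]

/-- The representation on the quotient by an invariant subspace. -/
def NLN_quo (ρ : G →* Module.End K V) (W : Submodule K V) (hW : ∀ g, ∀ w ∈ W, ρ g w ∈ W) :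
    G →* Module.End K (V ⧸ W) where
  toFun g := W.mapQ W (ρ g) (fun w hw => hW g w hw)
  map_one' := by
    ext w
    simp
  map_mul' := by
    intro a b
    ext w
    simp

theorem NLN_res_apply (ρ : G →* Module.End K V) (W : Submodule K V)
    (hW : ∀ g, ∀ w ∈ W, ρ g w ∈ W) (g : G) (h : NLN_res ρ W hW g = 1) (w : V) (hw : w ∈ W) :
    ρ g w = w := by
  have h1 := congrArg (fun f : Module.End K W => ((f ⟨w, hw⟩ : W) : V)) h
  simpa [NLN_res, LinearMap.restrict_apply] using h1

theorem NLN_quo_apply (ρ : G →* Module.End K V) (W : Submodule K V)
    (hW : ∀ g, ∀ w ∈ W, ρ g w ∈ W) (g : G) (h : NLN_quo ρ W hW g = 1) (v : V) :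
    ρ g v - v ∈ W := by
  have h1 := congrArg (fun f : Module.End K (V ⧸ W) => f (Submodule.Quotient.mk v)) h
  have h2 : (Submodule.Quotient.mk (ρ g v) : V ⧸ W) = Submodule.Quotient.mk v := by
    simpa [NLN_quo] using h1
  exact (Submodule.Quotient.eq W).1 h2

/-- The derived series of the commutator subgroup. -/
theorem NLN_shift (G : Type u) [Group G] (n : ℕ) :
    derivedSeries G (n + 1) = (derivedSeries (commutator G) n).map (commutator G).subtype := by
  induction n with
  | zero =>
    rw [derivedSeries_zero, ← MonoidHom.range_eq_map, Subgroup.range_subtype]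
    exact derivedSeries_one G
  | succ n ih =>
    rw [derivedSeries_succ G (n + 1), ih, derivedSeries_succ, Subgroup.map_commutator]

end

theorem NLN_main {K : Type u} [Field K] [IsAlgClosed K] (n : ℕ) :
    ∀ (G : Type u) [Group G] (V : Type u) [AddCommGroup V] [Module K V] [FiniteDimensional K V]
      (ρ : G →* Module.End K V), Group.IsNilpotent G → finrank K V ≤ n →
      ∀ g ∈ derivedSeries G n, ρ g = 1 := by
  induction n with
  | zero =>
    intro G _ V _ _ _ ρ _ hV g _
    have h0 : Subsingleton V := finrank_zero_iff.1 (Nat.le_zero.1 hV)
    ext v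
    exact Subsingleton.elim _ _
  | succ n ih =>
    intro G _ V _ _ _ ρ hG hV
    suffices h : derivedSeries G (n + 1) ≤ ρ.ker from fun g hg => h hg
    by_cases hinv : ∃ W : Submodule K V, W ≠ ⊥ ∧ W ≠ ⊤ ∧ ∀ g, ∀ w ∈ W, ρ g w ∈ W
    · obtain ⟨W, h0, h1, hW⟩ := hinv
      have hfW : finrank K W < finrank K V := Submodule.finrank_lt h1
      have hpos : finrank K W ≠ 0 := by
        intro h
        exact h0 (Submodule.finrank_eq_zero.1 h)
      have hsum := Submodule.finrank_quotient_add_finrank W
      have hA : ∀ g ∈ derivedSeries G n, ∀ w ∈ W, ρ g w = w := by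
        intro g hg w hw
        exact NLN_res_apply ρ W hW g (ih G W (NLN_res ρ W hW) hG (by omega) g hg) w hw
      have hB : ∀ g ∈ derivedSeries G n, ∀ v : V, ρ g v - v ∈ W := by
        intro g hg v
        exact NLN_quo_apply ρ W hW g (ih G (V ⧸ W) (NLN_quo ρ W hW) hG (by omega) g hg) v
      rw [derivedSeries_succ, Subgroup.commutator_le]
      intro g hg h hh
      refine NLN_comm_of ρ g h ?_
      ext v
      have e1 : ρ g (ρ h v - v) = ρ h v - v := hA g hg _ (hB h hh v)
      have e2 : ρ h (ρ g v - v) = ρ g v - v := hA h hh _ (hB g hg v)
      rw [map_sub] at e1 e2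
      have e3 : ρ g (ρ h v) = ρ h v - v + ρ g v := by
        rw [← e1]; abel
      have e4 : ρ h (ρ g v) = ρ g v - v + ρ h v := by
        rw [← e2]; abel
      rw [Module.End.mul_apply, Module.End.mul_apply, e3, e4]
      abel
    · by_cases hcom : ∀ g h : G, ρ g * ρ h = ρ h * ρ g
      · refine (derivedSeries_antitone G (Nat.succ_le_succ (Nat.zero_le n))).trans ?_
        rw [derivedSeries_one]
        rw [commutator_def, Subgroup.commutator_le]
        intro g _ h _
        exact NLN_comm_of ρ g h (hcom g h)
      · -- `V` is irreducible
        have hirr : ∀ W : Submodule K V, W ≠ ⊥ → (∀ g, ∀ w ∈ W, ρ g w ∈ W) → W = ⊤ := by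
          intro W h0 hW
          by_contra h1
          exact hinv ⟨W, h0, h1, hW⟩
        have hnt : Nontrivial V := by
          by_contra h
          rw [not_nontrivial_iff_subsingleton] at h
          refine hcom fun g h' => ?_
          ext v
          exact Subsingleton.elim _ _
        -- Schur
        have hschur : ∀ f : Module.End K V, (∀ g, f * ρ g = ρ g * f) → ∃ c : K, ∀ v, f v = c • v := by
          intro f hf
          obtain ⟨c, hc⟩ := Module.End.exists_eigenvalue f
          refine ⟨c, ?_⟩
          have htop : Module.End.eigenspace f c = ⊤ := by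
            refine hirr _ hc ?_
            intro g w hw
            rw [Module.End.mem_eigenspace_iff] at hw ⊢
            have h1 := congrArg (fun F : Module.End K V => F w) (hf g)
            simp only [Module.End.mul_apply] at h1
            rw [h1, hw, map_smul]
          intro v
          have hv : v ∈ Module.End.eigenspace f c := by rw [htop]; trivial
          exact Module.End.mem_eigenspace_iff.1 hv
        -- the element `x`
        obtain ⟨N, hN⟩ := Group.IsNilpotent.nilpotent' (G := G)
        have hex : ∃ i : ℕ, ¬ ∀ x ∈ Subgroup.upperCentralSeries G i, ∀ g, ρ x * ρ g = ρ g * ρ x := by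
          refine ⟨N, fun h => hcom fun a b => h a ?_ b⟩
          rw [hN]; trivial
        obtain ⟨i, hi, hmin⟩ : ∃ i : ℕ,
            (¬ ∀ x ∈ Subgroup.upperCentralSeries G i, ∀ g, ρ x * ρ g = ρ g * ρ x) ∧
            ∀ j < i, ∀ x ∈ Subgroup.upperCentralSeries G j, ∀ g, ρ x * ρ g = ρ g * ρ x := by
          classical
          refine ⟨Nat.find hex, Nat.find_spec hex, fun j hj => ?_⟩
          exact not_not.1 (Nat.find_min hex hj)
        have hi0 : i ≠ 0 := by
          rintro rfl
          apply hi
          intro x hx g
          rw [Subgroup.upperCentralSeries_zero, Subgroup.mem_bot] at hx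
          rw [hx, map_one, one_mul, mul_one]
        obtain ⟨j, rfl⟩ := Nat.exists_eq_succ_of_ne_zero hi0
        have hj := hmin j (Nat.lt_succ_self j)
        push Not at hi
        obtain ⟨x, hx, y0, hxy0⟩ := hi
        -- the scalars
        have hmu : ∀ y : G, ∃ c : K, ∀ v, ρ x (ρ y v) = c • ρ y (ρ x v) := by
          intro y
          have h1 : ⁅x, y⁆ ∈ Subgroup.upperCentralSeries G j :=
            Subgroup.mem_upperCentralSeries_succ_iff.1 hx y
          obtain ⟨c, hc⟩ := hschur (ρ ⁅x, y⁆) (fun g => hj _ h1 g)
          refine ⟨c, fun v => ?_⟩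
          have h2 : x * y = ⁅x, y⁆ * (y * x) := by
            rw [commutatorElement_def]; group
          have h3 : ρ x (ρ y v) = ρ (x * y) v := by rw [map_mul]; rfl
          rw [h3, h2, map_mul, Module.End.mul_apply, hc, map_mul]
          rfl
        choose mu hmu using hmu
        have hinj : ∀ g : G, ∀ v : V, ρ g v = 0 → v = 0 := by
          intro g v hv
          have h1 : ρ (g⁻¹ * g) v = 0 := by
            rw [map_mul, Module.End.mul_apply, hv, map_zero]
          rwa [inv_mul_cancel, map_one, Module.End.one_apply] at h1
        -- commutators commute with `x`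
        obtain ⟨v0, hv0⟩ := exists_ne (0 : V)
        have hmul : ∀ a b : G, mu (a * b) = mu a * mu b := by
          intro a b
          have h1 := hmu (a * b) v0
          have h2 : ρ x (ρ (a * b) v0) = (mu a * mu b) • ρ (a * b) (ρ x v0) := by
            rw [map_mul, Module.End.mul_apply, hmu a, hmu b, map_smul, smul_smul]
            rfl
          rw [h1] at h2
          have h3 : ρ (a * b) (ρ x v0) ≠ 0 := fun h => hv0 (hinj _ _ (hinj _ _ h))
          exact smul_left_injective K h3 h2
        have hone : mu 1 = 1 := by
          have h1 := hmu 1 v0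
          rw [map_one, Module.End.one_apply, Module.End.one_apply] at h1
          have h3 : ρ x v0 ≠ 0 := fun h => hv0 (hinj _ _ h)
          have h4 : (1 : K) • ρ x v0 = mu 1 • ρ x v0 := by rw [one_smul]; exact h1
          exact (smul_left_injective K h3 h4).symm
        have hker : ∀ g ∈ commutator G, mu g = 1 := by
          let f : G →* K := { toFun := mu, map_one' := hone, map_mul' := hmul }
          have h1 : commutator G ≤ f.ker := by
            rw [commutator_def, Subgroup.commutator_le]
            intro a _ b _
            have h2 : ⁅a, b⁆ = (a * b) * (b * a)⁻¹ := by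
              rw [commutatorElement_def]; group
            show f ⁅a, b⁆ = 1
            rw [h2, map_mul, map_mul, mul_comm (f a) (f b), ← map_mul, ← map_mul, mul_inv_cancel,
              map_one]
          intro g hg
          exact h1 hg
        -- the eigenspaces of `x`
        have hEinv : ∀ c : K, ∀ g : commutator G, ∀ w ∈ Module.End.eigenspace (ρ x) c,
            (ρ.comp (commutator G).subtype) g w ∈ Module.End.eigenspace (ρ x) c := by
          intro c g w hw
          rw [Module.End.mem_eigenspace_iff] at hw ⊢
          show ρ x (ρ g w) = c • ρ g w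
          rw [hmu, hker _ g.2, one_smul, hw, map_smul]
        have hEtop : ∀ c : K, Module.End.eigenspace (ρ x) c ≠ ⊤ := by
          intro c hc
          apply hxy0
          ext v
          have h1 : ∀ v, ρ x v = c • v := by
            intro v
            have hv : v ∈ Module.End.eigenspace (ρ x) c := by rw [hc]; trivial
            exact Module.End.mem_eigenspace_iff.1 hv
          rw [Module.End.mul_apply, Module.End.mul_apply, h1, h1, map_smul]
        have hact : ∀ g : commutator G, g ∈ derivedSeries (commutator G) n → ∀ c : K,
            ∀ w ∈ Module.End.eigenspace (ρ x) c, ρ g w = w := by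
          intro g hg c w hw
          have hlt : finrank K (Module.End.eigenspace (ρ x) c) < finrank K V :=
            Submodule.finrank_lt (hEtop c)
          have hnil : Group.IsNilpotent (commutator G) := Subgroup.isNilpotent _
          exact NLN_res_apply (ρ.comp (commutator G).subtype) _ (hEinv c) g
            (ih (commutator G) (Module.End.eigenspace (ρ x) c)
              (NLN_res (ρ.comp (commutator G).subtype) _ (hEinv c)) hnil (by omega) g hg) w hw
        have hsup : (⨆ c : K, Module.End.eigenspace (ρ x) c) = ⊤ := by
          refine hirr _ ?_ ?_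
          · obtain ⟨c, hc⟩ := Module.End.exists_eigenvalue (ρ x)
            intro h
            apply hc
            rw [eq_bot_iff, ← h]
            exact le_iSup (fun c : K => Module.End.eigenspace (ρ x) c) c
          · intro g
            have h1 : (⨆ c : K, Module.End.eigenspace (ρ x) c) ≤
                (⨆ c : K, Module.End.eigenspace (ρ x) c).comap (ρ g) := by
              refine iSup_le fun c => ?_
              intro w hw
              rw [Submodule.mem_comap]
              have h2 : ρ g w ∈ Module.End.eigenspace (ρ x) (mu g * c) := by
                rw [Module.End.mem_eigenspace_iff] at hw ⊢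
                rw [hmu, hw, map_smul, smul_smul]
              exact Submodule.mem_iSup_of_mem _ h2
            intro w hw
            exact h1 hw
        rw [NLN_shift]
        intro g hg
        obtain ⟨g', hg', rfl⟩ := hg
        show ρ (g' : G) = 1
        have h1 : (⨆ c : K, Module.End.eigenspace (ρ x) c) ≤ LinearMap.eqLocus (ρ (g' : G)) 1 := by
          refine iSup_le fun c => ?_
          intro w hw
          exact hact g' hg' c w hw
        ext v
        have h2 : v ∈ LinearMap.eqLocus (ρ (g' : G)) 1 := h1 (by rw [hsup]; trivial)
        exact h2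

theorem NLN : NLN_stmt.{u} := by
  intro n
  refine ⟨n, ?_⟩
  intro k _ _ G _ _ ρ hρ hG
  let K := AlgebraicClosure k
  let σ : G →* Module.End K (Fin n → K) :=
    ((Matrix.toLinAlgEquiv' : Matrix (Fin n) (Fin n) K ≃ₐ[K] _).toRingEquiv.toRingHom.toMonoidHom.comp
      ((algebraMap k K).mapMatrix.toMonoidHom)).comp
      ((Units.coeHom (Matrix (Fin n) (Fin n) k)).comp ρ)
  have hσ : Function.Injective σ := by
    intro a b hab
    have h1 : ((algebraMap k K).mapMatrix (ρ a : Matrix (Fin n) (Fin n) k)) =
        (algebraMap k K).mapMatrix (ρ b : Matrix (Fin n) (Fin n) k) :=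
      (Matrix.toLinAlgEquiv' : Matrix (Fin n) (Fin n) K ≃ₐ[K] _).injective hab
    have h2 : (ρ a : Matrix (Fin n) (Fin n) k) = (ρ b : Matrix (Fin n) (Fin n) k) := by
      ext i j
      have h3 := congrFun (congrFun h1 i) j
      simp only [RingHom.mapMatrix_apply, Matrix.map_apply] at h3
      exact (algebraMap k K).injective h3
    exact hρ (Units.ext h2)
  rw [eq_bot_iff]
  intro g hg
  rw [Subgroup.mem_bot]
  apply hσ
  rw [map_one]
  exact NLN_main n G (Fin n → K) σ hG (by rw [finrank_fin_fun]) g hg

end Pool.Agent.helper80.EN
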