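import Mathlib
import Pool.Agent.helper25.EN.Spec

set_option autoImplicit false

namespace EN

open Finset Real

private theorem LOG_fl {m : ℕ} (v : Fin m) (x : Om m) (D : Finset (Fin m)) (hv : v ∉ D) :
    ∀ u ∈ D, fl v x u = x u := by
  intro u hu
  unfold fl
  rw [Function.update_of_ne]
  rintro rfl
  exact hv hu

private theorem LOG_one (acp : ACP_stmt) {m : ℕ} {Q : Om m → ℝ} (hQ : Law Q) (v : Fin m)
    (C C' : Finset (Fin m)) (x : Om m) (hv' : v ∉ C') (hC : C ⊆ C') (hx : 0 < Q x)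
    (h1 : a Q C v x = 1) : a Q C' v x = 1 := by
  have hv : v ∉ C := fun h => hv' (hC h)
  obtain ⟨p1, p2, -, -, -, -, p7⟩ := acp m Q hQ C v x
  obtain ⟨-, -, -, p8⟩ := p7 hv
  obtain ⟨-, -, -, -, -, -, q7⟩ := acp m Q hQ C' v x
  obtain ⟨-, -, -, q8⟩ := q7 hv'
  have e1 := (p8 hx).2
  rw [h1, sub_self] at e1
  have e2 : w Q C (fl v x) = w Q C x := p1 _ (LOG_fl v x C hv)
  have e3 : w Q C x ≠ 0 := by linarith
  unfold a at e1
  rw [e2, div_eq_zero_iff] at e1
  have e4 : w Q (insert v C) (fl v x) = 0 := by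
    rcases e1 with h | h
    · exact h
    · exact absurd h e3
  obtain ⟨-, -, -, -, -, r6, -⟩ := acp m Q hQ (insert v C) v (fl v x)
  have e5 := r6 (insert v C') (insert_subset_insert v hC)
  obtain ⟨-, s2, -, -, -, -, -⟩ := acp m Q hQ (insert v C') v (fl v x)
  have e6 : 0 ≤ Q (fl v x) := hQ.1 _
  have e7 : w Q (insert v C') (fl v x) = 0 := by linarith
  have e8 := (q8 hx).2
  have e9 : a Q C' v (fl v x) = 0 := by
    unfold a
    rw [e7, zero_div]
  linarith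

private theorem LOG_kl {s t : ℝ} (hs : 0 < s) (ht : 0 < t) (h1 : t = 1 → s = 1) :
    s * (log s - log t) + (1 - s) * (log (1 - s) - log (1 - t)) = kl s t := by
  unfold kl
  rw [log_div hs.ne' ht.ne']
  by_cases hs1 : 1 - s = 0
  · rw [hs1, zero_mul, zero_mul]
  · have ht1 : 1 - t ≠ 0 := by
      intro h
      apply hs1
      rw [h1 (by linarith)]
      ring
    rw [log_div hs1 ht1]

theorem LOG (acp : ACP_stmt) (cex : CEX_stmt) (inq : INQ_stmt) : LOG_stmt := by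
  intro m Q hQ v C C' Gd hG
  have hv' : ∀ x ∈ Gd, v ∉ C' x := fun x hx => (hG x hx).1
  have hsub : ∀ x ∈ Gd, C x ⊆ C' x := fun x hx => (hG x hx).2.1
  have hv : ∀ x ∈ Gd, v ∉ C x := fun x hx h => hv' x hx (hsub x hx h)
  have fC' : ∀ x ∈ Gd, C' (fl v x) = C' x := fun x hx =>
    ((hG x hx).2.2.2 _ (LOG_fl v x _ (hv' x hx))).1
  have fC : ∀ x ∈ Gd, C (fl v x) = C x := fun x hx =>
    (hG x hx).2.2.1 _ (LOG_fl v x _ (hv x hx))
  have A' : ∀ x ∈ Gd, (∀ y, (∀ u ∈ insert v (C' x), y u = x u) → a Q (C' x) v y = a Q (C' x) v x) ∧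
      0 ≤ a Q (C' x) v x ∧ a Q (C' x) v x ≤ 1 ∧
      (0 < Q x → 0 < a Q (C' x) v x ∧ a Q (C' x) v (fl v x) = 1 - a Q (C' x) v x) := fun x hx =>
    (acp m Q hQ (C' x) v x).2.2.2.2.2.2 (hv' x hx)
  have A : ∀ x ∈ Gd, (∀ y, (∀ u ∈ insert v (C x), y u = x u) → a Q (C x) v y = a Q (C x) v x) ∧
      0 ≤ a Q (C x) v x ∧ a Q (C x) v x ≤ 1 ∧
      (0 < Q x → 0 < a Q (C x) v x ∧ a Q (C x) v (fl v x) = 1 - a Q (C x) v x) := fun x hx =>
    (acp m Q hQ (C x) v x).2.2.2.2.2.2 (hv x hx)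
  have part1 : ∑ x ∈ Gd, Q x * log (2 * a Q (C' x) v x) = ∑ x ∈ Gd, Q x * phi (a Q (C' x) v x) := by
    have h := cex m Q hQ v C' Gd (fun x => log (2 * a Q (C' x) v x)) (by
      intro x hx
      refine ⟨hv' x hx, (hG x hx).2.2.2, ?_⟩
      intro y hy
      have e1 : C' y = C' x := ((hG x hx).2.2.2 y (fun u hu => hy u (mem_insert_of_mem hu))).1
      show log (2 * a Q (C' y) v y) = log (2 * a Q (C' x) v x)
      rw [e1, (A' x hx).1 y hy])
    rw [h]
    refine sum_congr rfl fun x hx => ?_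
    rcases (hQ.1 x).eq_or_lt with h0 | h0
    · rw [← h0, zero_mul, zero_mul]
    · show Q x * (a Q (C' x) v x * log (2 * a Q (C' x) v x) +
        (1 - a Q (C' x) v x) * log (2 * a Q (C' (fl v x)) v (fl v x))) = Q x * phi (a Q (C' x) v x)
      rw [fC' x hx, ((A' x hx).2.2.2 h0).2]
      rfl
  have part2 : ∑ x ∈ Gd, Q x * (log (a Q (C' x) v x) - log (a Q (C x) v x)) =
      ∑ x ∈ Gd, Q x * kl (a Q (C' x) v x) (a Q (C x) v x) := by
    have h := cex m Q hQ v C' Gd (fun x => log (a Q (C' x) v x) - log (a Q (C x) v x)) (by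
      intro x hx
      refine ⟨hv' x hx, (hG x hx).2.2.2, ?_⟩
      intro y hy
      have e1 : C' y = C' x := ((hG x hx).2.2.2 y (fun u hu => hy u (mem_insert_of_mem hu))).1
      have e2 : C y = C x :=
        (hG x hx).2.2.1 y (fun u hu => hy u (mem_insert_of_mem (hsub x hx hu)))
      have e3 : ∀ u ∈ insert v (C x), y u = x u := fun u hu =>
        hy u (insert_subset_insert v (hsub x hx) hu)
      show log (a Q (C' y) v y) - log (a Q (C y) v y) =
        log (a Q (C' x) v x) - log (a Q (C x) v x)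
      rw [e1, e2, (A' x hx).1 y hy, (A x hx).1 y e3])
    rw [h]
    refine sum_congr rfl fun x hx => ?_
    rcases (hQ.1 x).eq_or_lt with h0 | h0
    · rw [← h0, zero_mul, zero_mul]
    · have h1 := LOG_kl ((A' x hx).2.2.2 h0).1 ((A x hx).2.2.2 h0).1
        (fun h => LOG_one acp hQ v (C x) (C' x) x (hv' x hx) (hsub x hx) h0 h)
      show Q x * (a Q (C' x) v x * (log (a Q (C' x) v x) - log (a Q (C x) v x)) +
        (1 - a Q (C' x) v x) * (log (a Q (C' (fl v x)) v (fl v x)) -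
          log (a Q (C (fl v x)) v (fl v x)))) = _
      rw [fC' x hx, fC x hx, ((A' x hx).2.2.2 h0).2, ((A x hx).2.2.2 h0).2, h1]
  refine ⟨part1, part2, ?_⟩
  have h3 : 0 ≤ ∑ x ∈ Gd, Q x * kl (a Q (C' x) v x) (a Q (C x) v x) := by
    refine sum_nonneg fun x hx => ?_
    rcases (hQ.1 x).eq_or_lt with h0 | h0
    · rw [← h0, zero_mul]
    · refine mul_nonneg h0.le ?_
      refine (inq _ _ (A' x hx).2.1 (A' x hx).2.2.1 (A x hx).2.1 (A x hx).2.2.1 ?_ ?_).1
      · intro h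
        exact absurd h ((A x hx).2.2.2 h0).1.ne'
      · exact fun h => LOG_one acp hQ v (C x) (C' x) x (hv' x hx) (hsub x hx) h0 h
  rw [← part2] at h3
  simp only [mul_sub, sum_sub_distrib] at h3
  linarith

end EN
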